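import Pool.Agent.Helper41.SQC.Goals

/-! MP_bb32d1_al, stage C, packet CLE: the second closure. -/

set_option autoImplicit false
set_option linter.unusedSectionVars false

namespace Pool.Agent.Helper30.SQC

noncomputable section

open Matrix Pool.Agent.Helper19.SQ Pool.Agent.Helper34.SQ Pool.Agent.Helper41.SQ
  Pool.Agent.Helper4.SQ Pool.Agent.Helper41.SQC

/-! ### generic lemmas -/

/-- lower block triangular matrices, products. -/
theorem tri_mul {n : ℕ} {R : Type*} [Ring R] {M M' : Matrix (Fin n) (Fin n) R}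
    (h : ∀ i j, i < j → M i j = 0) (h' : ∀ i j, i < j → M' i j = 0) :
    (∀ i j, i < j → (M * M') i j = 0) ∧ ∀ j, (M * M') j j = M j j * M' j j := by
  constructor
  · intro i j hij
    rw [Matrix.mul_apply]
    refine Finset.sum_eq_zero fun k _ => ?_
    by_cases hk : i < k
    · rw [h i k hk, zero_mul]
    · rw [h' k j (lt_of_le_of_lt (not_lt.mp hk) hij), mul_zero]
  · intro j
    rw [Matrix.mul_apply]
    refine Finset.sum_eq_single j (fun k _ hk => ?_) (fun h0 => absurd (Finset.mem_univ j) h0)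
    rcases lt_or_gt_of_ne hk with hk | hk
    · rw [h' k j hk, mul_zero]
    · rw [h j k hk, zero_mul]

/-- the trace of a conjugate. -/
theorem trace_conj {ι : Type*} [Fintype ι] [DecidableEq ι] {B : Type*} [CommRing B]
    {R T G Θ : Matrix ι ι B} (hG : IsUnit G.det) (h : R * G = G * T) (hΘ : Θ * G = G * Θ) :
    Matrix.trace (R * Θ) = Matrix.trace (T * Θ) := by
  have h1 : G * G⁻¹ = 1 := Matrix.mul_nonsing_inv G hG
  have h2 : G⁻¹ * G = 1 := Matrix.nonsing_inv_mul G hG
  calc Matrix.trace (R * Θ) = Matrix.trace (R * Θ * (G * G⁻¹)) := by rw [h1, mul_one]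
    _ = Matrix.trace (R * (Θ * G) * G⁻¹) := by simp only [mul_assoc]
    _ = Matrix.trace (R * G * Θ * G⁻¹) := by rw [hΘ]; simp only [mul_assoc]
    _ = Matrix.trace (G * T * Θ * G⁻¹) := by rw [h]
    _ = Matrix.trace (G⁻¹ * (G * T * Θ)) := by rw [Matrix.trace_mul_comm]
    _ = Matrix.trace (T * Θ) := by
        rw [← mul_assoc, ← mul_assoc, h2, one_mul]

section Main

variable {N l : ℕ} {q : ℂ} {B : Type} [CommRing B] [Algebra ℂ B]

/-- `V* (x) Z(lam)` as an algebra map. -/
def RW (V : VD N l q) (p : Pr B) (lam : Fin (N + 1) → ZMod l) :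
    FB B →ₐ[B] Matrix (Fin (N + 1)) (Fin (N + 1)) (Matrix (EX N l) (EX N l) B) :=
  ((rep V p lam).mapMatrix).comp (epB N l q p)

/-- the block matrices in the basis `F^a (φ_j (x) 1)`. -/
def TE (V : VD N l q) (p : Pr B) (lam : Fin (N + 1) → ZMod l) :
    FB B →ₐ[B] Matrix (Fin (N + 1)) (Fin (N + 1)) (Matrix (EX N l) (EX N l) B) :=
  FreeAlgebra.lift B (genVal
    (fun k => Matrix.of fun i j => if i = j then zE V p.t p.t' (subE lam j) k else
      if (i : ℕ) = k + 1 ∧ (j : ℕ) = k then algebraMap ℂ B (-q) • 1 else 0)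
    (fun k => Matrix.of fun i j => if i = j then zF N l q B k else 0)
    (fun k => Matrix.of fun i j => if i = j then zK q B (subE lam j) k else 0))

theorem rep_xE (V : VD N l q) (p : Pr B) (lam : Fin (N + 1) → ZMod l) (k : ℕ) :
    rep V p lam (xE B k) = zE V p.t p.t' lam k := by
  unfold rep xE
  rw [FreeAlgebra.lift_ι_apply]
  rfl

theorem rep_xF (V : VD N l q) (p : Pr B) (lam : Fin (N + 1) → ZMod l) (k : ℕ) :
    rep V p lam (xF B k) = zF N l q B k := by
  unfold rep xF
  rw [FreeAlgebra.lift_ι_apply]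
  rfl

theorem rep_xK (V : VD N l q) (p : Pr B) (lam : Fin (N + 1) → ZMod l) (k : ℕ) :
    rep V p lam (xK B k) = zK q B lam k := by
  unfold rep xK
  rw [FreeAlgebra.lift_ι_apply]
  rfl

theorem rep_smul (V : VD N l q) (p : Pr B) (lam : Fin (N + 1) → ZMod l) (c : ℂ) (a : FB B) :
    rep V p lam (c • a) = c • rep V p lam a :=
  map_smul ((rep V p lam).restrictScalars ℂ) c a

theorem epB_xE (p : Pr B) (k : ℕ) : epB N l q p (xE B k) = eE N q (xE B) k := by
  unfold epB
  conv_lhs => rw [xE]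
  rw [FreeAlgebra.lift_ι_apply]
  rfl

theorem epB_xF (p : Pr B) (k : ℕ) : epB N l q p (xF B k) =
    eFt N l q (fun k => algebraMap B (FB B) (p.t' k)) (xF B) (xK B) k := by
  unfold epB
  conv_lhs => rw [xF]
  rw [FreeAlgebra.lift_ι_apply]
  rfl

theorem epB_xK (p : Pr B) (k : ℕ) : epB N l q p (xK B k) = eK N q (xK B) k := by
  unfold epB
  conv_lhs => rw [xK]
  rw [FreeAlgebra.lift_ι_apply]
  rfl

theorem RW_apply (V : VD N l q) (p : Pr B) (lam : Fin (N + 1) → ZMod l) (a : FB B)
    (i j : Fin (N + 1)) : RW V p lam a i j = rep V p lam (epB N l q p a i j) := rfl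

theorem RW_xE (V : VD N l q) (p : Pr B) (lam : Fin (N + 1) → ZMod l) (k : ℕ) :
    Matrix.comp _ _ _ _ _ (RW V p lam (xE B k)) = wzE V p.t p.t' lam k := by
  unfold wzE
  congr 1
  refine Matrix.ext fun i j => ?_
  rw [RW_apply, epB_xE]
  unfold eE
  rw [Matrix.of_apply, Matrix.of_apply, map_add]
  congr 1
  · split_ifs
    · rw [rep_smul, rep_xE]
    · rw [map_zero]
  · split_ifs
    · rw [rep_smul, map_one]
    · rw [map_zero]

theorem RW_xF (V : VD N l q) (p : Pr B) (lam : Fin (N + 1) → ZMod l) (k : ℕ) :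
    Matrix.comp _ _ _ _ _ (RW V p lam (xF B k)) = wzF q p.t' lam k := by
  unfold wzF
  congr 1
  refine Matrix.ext fun i j => ?_
  rw [RW_apply, epB_xF]
  unfold eFt
  rw [Matrix.of_apply, Matrix.of_apply, map_add]
  congr 1
  · split_ifs
    · rw [rep_xF]
    · rw [map_zero]
  · split_ifs
    · unfold ki
      rw [rep_smul, map_mul, map_mul, map_pow, rep_xK, rep_xK, AlgHom.commutes]
    · rw [map_zero]

theorem RW_xK (V : VD N l q) (p : Pr B) (lam : Fin (N + 1) → ZMod l) (k : ℕ) :
    Matrix.comp _ _ _ _ _ (RW V p lam (xK B k)) = wzK q B lam k := by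
  unfold wzK
  congr 1
  refine Matrix.ext fun i j => ?_
  rw [RW_apply, epB_xK]
  unfold eK
  rw [Matrix.of_apply, Matrix.of_apply]
  split_ifs
  · rw [rep_smul, rep_xK]
  · rw [rep_smul, rep_xK]
  · rw [map_zero]

theorem TE_xE (V : VD N l q) (p : Pr B) (lam : Fin (N + 1) → ZMod l) (k : ℕ) :
    TE V p lam (xE B k) = Matrix.of fun i j => if i = j then zE V p.t p.t' (subE lam j) k else
      if (i : ℕ) = k + 1 ∧ (j : ℕ) = k then algebraMap ℂ B (-q) • 1 else 0 := by
  unfold TE
  conv_lhs => rw [xE]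
  rw [FreeAlgebra.lift_ι_apply]
  rfl

theorem TE_xF (V : VD N l q) (p : Pr B) (lam : Fin (N + 1) → ZMod l) (k : ℕ) :
    TE V p lam (xF B k) = Matrix.of fun i j => if i = j then zF N l q B k else 0 := by
  unfold TE
  conv_lhs => rw [xF]
  rw [FreeAlgebra.lift_ι_apply]
  rfl

theorem TE_xK (V : VD N l q) (p : Pr B) (lam : Fin (N + 1) → ZMod l) (k : ℕ) :
    TE V p lam (xK B k) = Matrix.of fun i j => if i = j then zK q B (subE lam j) k else 0 := by
  unfold TE
  conv_lhs => rw [xK]
  rw [FreeAlgebra.lift_ι_apply]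
  rfl

theorem cTE_xE (V : VD N l q) (p : Pr B) (lam : Fin (N + 1) → ZMod l) (k : ℕ) :
    Matrix.comp _ _ _ _ _ (TE V p lam (xE B k)) =
      bdg (fun j => zE V p.t p.t' (subE lam j) k) + offe N l q B k := by
  rw [TE_xE]
  refine Matrix.ext fun x y => ?_
  rw [Matrix.add_apply]
  unfold bdg offe
  rw [Matrix.of_apply, Matrix.of_apply, Matrix.comp_apply, Matrix.of_apply]
  by_cases h1 : x.1 = y.1
  · rw [if_pos h1, if_pos h1, if_neg, add_zero]
    rintro ⟨h2, h3, -⟩
    rw [h1] at h2
    omega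
  · rw [if_neg h1, if_neg h1, zero_add]
    by_cases h2 : (x.1 : ℕ) = k + 1 ∧ (y.1 : ℕ) = k
    · rw [if_pos h2]
      by_cases h3 : x.2 = y.2
      · rw [if_pos ⟨h2.1, h2.2, h3⟩, Matrix.smul_apply, h3, Matrix.one_apply_eq, smul_eq_mul,
          mul_one]
      · rw [if_neg (fun h => h3 h.2.2), Matrix.smul_apply, Matrix.one_apply_ne h3, smul_zero]
    · rw [if_neg h2, if_neg (fun h => h2 ⟨h.1, h.2.1⟩)]
      rfl

theorem cTE_xF (V : VD N l q) (p : Pr B) (lam : Fin (N + 1) → ZMod l) (k : ℕ) :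
    Matrix.comp _ _ _ _ _ (TE V p lam (xF B k)) =
      bdg (fun _ : Fin (N + 1) => zF N l q B k) := by
  rw [TE_xF]
  refine Matrix.ext fun x y => ?_
  unfold bdg
  rw [Matrix.of_apply, Matrix.comp_apply, Matrix.of_apply]
  by_cases h1 : x.1 = y.1
  · rw [if_pos h1, if_pos h1]
  · rw [if_neg h1, if_neg h1]
    rfl

theorem cTE_xK (V : VD N l q) (p : Pr B) (lam : Fin (N + 1) → ZMod l) (k : ℕ) :
    Matrix.comp _ _ _ _ _ (TE V p lam (xK B k)) =
      bdg (fun j : Fin (N + 1) => zK q B (subE lam j) k) := by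
  rw [TE_xK]
  refine Matrix.ext fun x y => ?_
  unfold bdg
  rw [Matrix.of_apply, Matrix.comp_apply, Matrix.of_apply]
  by_cases h1 : x.1 = y.1
  · rw [if_pos h1, if_pos h1]
  · rw [if_neg h1, if_neg h1]
    rfl

/-- `T a` is block triangular, with the diagonal blocks `rep (lam - eps_j) a`. -/
theorem TE_tri (V : VD N l q) (p : Pr B) (lam : Fin (N + 1) → ZMod l) (a : FB B) :
    (∀ i j, i < j → TE V p lam a i j = 0) ∧
      ∀ j, TE V p lam a j j = rep V p (subE lam j) a := by
  induction a using FreeAlgebra.induction with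
  | grade0 r =>
    constructor
    · intro i j hij
      rw [AlgHom.commutes, Matrix.algebraMap_matrix_apply, if_neg hij.ne]
    · intro j
      rw [AlgHom.commutes, Matrix.algebraMap_matrix_apply, if_pos rfl, AlgHom.commutes]
  | grade1 g =>
    cases g with
    | E k =>
      change (∀ i j, i < j → TE V p lam (xE B k) i j = 0) ∧
        ∀ j, TE V p lam (xE B k) j j = rep V p (subE lam j) (xE B k)
      rw [TE_xE]
      constructor
      · intro i j hij
        rw [Matrix.of_apply, if_neg hij.ne, if_neg]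
        have := Fin.lt_def.mp hij
        omega
      · intro j
        rw [Matrix.of_apply, if_pos rfl, rep_xE]
    | F k =>
      change (∀ i j, i < j → TE V p lam (xF B k) i j = 0) ∧
        ∀ j, TE V p lam (xF B k) j j = rep V p (subE lam j) (xF B k)
      rw [TE_xF]
      constructor
      · intro i j hij
        rw [Matrix.of_apply, if_neg hij.ne]
      · intro j
        rw [Matrix.of_apply, if_pos rfl, rep_xF]
    | K k =>
      change (∀ i j, i < j → TE V p lam (xK B k) i j = 0) ∧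
        ∀ j, TE V p lam (xK B k) j j = rep V p (subE lam j) (xK B k)
      rw [TE_xK]
      constructor
      · intro i j hij
        rw [Matrix.of_apply, if_neg hij.ne]
      · intro j
        rw [Matrix.of_apply, if_pos rfl, rep_xK]
  | mul a b ha hb =>
    have h := tri_mul ha.1 hb.1
    rw [map_mul]
    refine ⟨h.1, fun j => ?_⟩
    rw [h.2, ha.2, hb.2, map_mul]
  | add a b ha hb =>
    rw [map_add]
    constructor
    · intro i j hij
      rw [Matrix.add_apply, ha.1 i j hij, hb.1 i j hij, add_zero]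
    · intro j
      rw [Matrix.add_apply, ha.2, hb.2, map_add]

theorem comp_mul' (M M' : Matrix (Fin (N + 1)) (Fin (N + 1)) (Matrix (EX N l) (EX N l) B)) :
    Matrix.comp _ _ _ _ _ (M * M')
      = Matrix.comp _ _ _ _ _ M * Matrix.comp _ _ _ _ _ M' :=
  map_mul (Matrix.compRingEquiv (Fin (N + 1)) (EX N l) B) M M'

theorem comp_add' (M M' : Matrix (Fin (N + 1)) (Fin (N + 1)) (Matrix (EX N l) (EX N l) B)) :
    Matrix.comp _ _ _ _ _ (M + M')
      = Matrix.comp _ _ _ _ _ M + Matrix.comp _ _ _ _ _ M' := rfl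

theorem comp_scalar (r : B) :
    Matrix.comp _ _ _ _ _ (algebraMap B (Matrix (Fin (N + 1)) (Fin (N + 1))
      (Matrix (EX N l) (EX N l) B)) r)
      = algebraMap B (Matrix (Fin (N + 1) × EX N l) (Fin (N + 1) × EX N l) B) r := by
  refine Matrix.ext fun x y => ?_
  rw [Matrix.comp_apply, Matrix.algebraMap_matrix_apply, Matrix.algebraMap_matrix_apply]
  by_cases h1 : x.1 = y.1
  · rw [if_pos h1, Matrix.algebraMap_matrix_apply]
    by_cases h2 : x.2 = y.2
    · rw [if_pos h2, if_pos (Prod.ext h1 h2)]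
    · rw [if_neg h2, if_neg (fun h => h2 (congrArg Prod.snd h))]
  · rw [if_neg h1, if_neg (fun h => h1 (congrArg Prod.fst h))]
    rfl

/-- the intertwining property. -/
theorem RW_Ge [NeZero l] (V : VD N l q) (p : Pr B) (lam : Fin (N + 1) → ZMod l)
    (hE : ∀ k, wzE V p.t p.t' lam k * Ge q p.t' lam
      = Ge q p.t' lam * (bdg (fun j => zE V p.t p.t' (subE lam j) k) + offe N l q B k))
    (hF : ∀ k, wzF q p.t' lam k * Ge q p.t' lam
      = Ge q p.t' lam * bdg (fun _ : Fin (N + 1) => zF N l q B k))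
    (hK : ∀ k, wzK q B lam k * Ge q p.t' lam
      = Ge q p.t' lam * bdg (fun j : Fin (N + 1) => zK q B (subE lam j) k)) (a : FB B) :
    Matrix.comp _ _ _ _ _ (RW V p lam a) * Ge q p.t' lam
      = Ge q p.t' lam * Matrix.comp _ _ _ _ _ (TE V p lam a) := by
  induction a using FreeAlgebra.induction with
  | grade0 r =>
    rw [AlgHom.commutes, AlgHom.commutes, comp_scalar]
    exact Algebra.commutes r _
  | grade1 g =>
    cases g with
    | E k =>
      change Matrix.comp _ _ _ _ _ (RW V p lam (xE B k)) * Ge q p.t' lam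
        = Ge q p.t' lam * Matrix.comp _ _ _ _ _ (TE V p lam (xE B k))
      rw [RW_xE, cTE_xE, hE]
    | F k =>
      change Matrix.comp _ _ _ _ _ (RW V p lam (xF B k)) * Ge q p.t' lam
        = Ge q p.t' lam * Matrix.comp _ _ _ _ _ (TE V p lam (xF B k))
      rw [RW_xF, cTE_xF, hF]
    | K k =>
      change Matrix.comp _ _ _ _ _ (RW V p lam (xK B k)) * Ge q p.t' lam
        = Ge q p.t' lam * Matrix.comp _ _ _ _ _ (TE V p lam (xK B k))
      rw [RW_xK, cTE_xK, hK]
  | mul a b ha hb =>
    rw [map_mul (RW V p lam), map_mul (TE V p lam), comp_mul', comp_mul', mul_assoc, hb,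
      ← mul_assoc, ha, mul_assoc]
  | add a b ha hb =>
    rw [map_add (RW V p lam), map_add (TE V p lam), comp_add', comp_add', add_mul, mul_add, ha,
      hb]

/-- the twisted trace of a matrix given by blocks. -/
theorem trace_blocks (p : Pr B)
    (M : Matrix (Fin (N + 1)) (Fin (N + 1)) (Matrix (EX N l) (EX N l) B)) :
    Matrix.trace (Matrix.comp _ _ _ _ _ M
        * Matrix.diagonal fun z : Fin (N + 1) × EX N l => p.si z.1 * thE p z.2)
      = ∑ j : Fin (N + 1), p.si j * Matrix.trace (M j j * Thm N l p) := by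
  unfold Matrix.trace Thm
  rw [Fintype.sum_prod_type]
  refine Finset.sum_congr rfl fun j _ => ?_
  rw [Finset.mul_sum]
  refine Finset.sum_congr rfl fun b _ => ?_
  rw [Matrix.diag_apply, Matrix.diag_apply, Matrix.mul_diagonal, Matrix.mul_diagonal,
    Matrix.comp_apply]
  ring

theorem subE_lamOf (x : Fin (N + 1) → ZMod l) (j : Fin (N + 1)) :
    subE (lamOf x) j = lamOf (subE x j) := by
  funext i
  unfold subE lamOf
  ring

end Main

/-- **CLE.** -/
theorem c_cle (h1 : S_GE) (h2 : S_GIE) (h3 : S_THV) : S_CLE := by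
  intro N l _ q D hp V B _ _ aug hn p hκ a
  funext x
  have hκi : ∀ j, aug (p.κi j) = 1 := fun j => by
    have := congrArg aug (p.κκ j)
    rwa [map_mul, hκ, one_mul, map_one] at this
  have ht' : ∀ i, aug (p.t' i) = 1 := fun i => by
    unfold Pr.t'
    rw [map_mul, hκ, hκi, one_mul]
  have hGE := fun k => h1 N l q D hp V B p.t p.t' p.tt (lamOf x) k
  have hG : IsUnit (Ge q p.t' (lamOf x) : Matrix (Fin (N + 1) × EX N l) _ B).det :=
    h2 N l q D hp V B aug hn p.t' ht' (lamOf x)
  have hT := (h3 N l q hp B p p.t' (lamOf x)).2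
  have hW := RW_Ge V p (lamOf x) (fun k => (hGE k).1) (fun k => (hGE k).2.1)
    (fun k => (hGE k).2.2) a
  have key := trace_conj hG hW hT
  rw [trace_blocks, trace_blocks] at key
  have hl : TH V p (eB N l q p a) x
      = ∑ j : Fin (N + 1), p.si j * Matrix.trace (RW V p (lamOf x) a j j * Thm N l p) := by
    rw [TH_apply]
    change Matrix.trace (rep V p (lamOf x) (∑ i : Fin (N + 1), p.si i • epB N l q p a i i)
      * Thm N l p) = _
    rw [map_sum, Finset.sum_mul, Matrix.trace_sum]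
    refine Finset.sum_congr rfl fun j _ => ?_
    rw [map_smul, smul_mul_assoc, Matrix.trace_smul, smul_eq_mul, RW_apply]
  have hr : opE p (TH V p a) x
      = ∑ j : Fin (N + 1), p.si j * Matrix.trace (TE V p (lamOf x) a j j * Thm N l p) := by
    unfold opE
    refine Finset.sum_congr rfl fun j _ => ?_
    rw [TH_apply, (TE_tri V p (lamOf x) a).2 j, subE_lamOf]
  rw [hl, hr, key]

end

end Pool.Agent.Helper30.SQC
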